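import Mathlib

/-! Functions with prescribed fibre sizes. -/

set_option autoImplicit false
set_option linter.unusedSectionVars false

namespace Pool.Agent.R105.KL

open Finset

section General

variable {ι X Y : Type} [Fintype ι] [DecidableEq ι] [Fintype X] [DecidableEq X] [Fintype Y]
  [DecidableEq Y]

/-- The number of `i` with `f i = a`. -/
def cnt (f : ι → X) (a : X) : ℕ := (univ.filter fun i => f i = a).card

omit [DecidableEq ι] in
theorem sum_cnt (f : ι → X) : ∑ a, cnt f a = Fintype.card ι := by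
  simp only [cnt]
  rw [← Finset.card_eq_sum_card_fiberwise (f := f) (s := univ) (t := univ) (fun _ _ => mem_univ _)]
  rfl

theorem cnt_comp_perm (f : ι → X) (π : Equiv.Perm ι) (a : X) : cnt (f ∘ π) a = cnt f a := by
  unfold cnt
  refine Finset.card_bij (fun i _ => π i) ?_ ?_ ?_
  · intro i hi
    simpa using hi
  · intro i _ j _ h
    exact π.injective h
  · intro i hi
    exact ⟨π.symm i, by simpa using hi, by simp⟩

theorem exists_perm (f g : ι → X) (h : ∀ a, cnt f a = cnt g a) :
    ∃ π : Equiv.Perm ι, g ∘ π = f := by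
  have e : ∀ a, Nonempty ({i // f i = a} ≃ {i // g i = a}) := by
    intro a
    refine ⟨Fintype.equivOfCardEq ?_⟩
    rw [Fintype.card_subtype, Fintype.card_subtype]
    exact h a
  refine ⟨Equiv.ofFiberEquiv fun a => (e a).some, ?_⟩
  funext i
  exact Equiv.ofFiberEquiv_map _ i

/-- The functions which take each nonzero value exactly `μ` times. -/
def E (ι X : Type) [Fintype ι] [DecidableEq ι] [Fintype X] [DecidableEq X] [Zero X] (μ : ℕ) :
    Finset (ι → X) :=
  univ.filter fun f => ∀ a, a ≠ 0 → cnt f a = μ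

theorem mem_E [Zero X] {μ : ℕ} {f : ι → X} : f ∈ E ι X μ ↔ ∀ a, a ≠ 0 → cnt f a = μ := by
  simp [E]

theorem E_perm [Zero X] {μ : ℕ} {f : ι → X} (hf : f ∈ E ι X μ) (π : Equiv.Perm ι) :
    f ∘ π ∈ E ι X μ := by
  rw [mem_E] at hf ⊢
  intro a ha
  rw [cnt_comp_perm, hf a ha]

theorem E_exists_perm [Zero X] {μ : ℕ} {f g : ι → X} (hf : f ∈ E ι X μ) (hg : g ∈ E ι X μ) :
    ∃ π : Equiv.Perm ι, g ∘ π = f := by
  refine exists_perm f g fun a => ?_
  rw [mem_E] at hf hg
  by_cases ha : a = 0
  · subst ha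
    have h1 := sum_cnt f
    have h2 := sum_cnt g
    rw [← Finset.add_sum_erase univ _ (mem_univ (0 : X))] at h1 h2
    have h3 : ∑ x ∈ univ.erase (0 : X), cnt f x = ∑ x ∈ univ.erase (0 : X), cnt g x :=
      Finset.sum_congr rfl fun x hx => by
        rw [hf x (Finset.ne_of_mem_erase hx), hg x (Finset.ne_of_mem_erase hx)]
    omega
  · rw [hf a ha, hg a ha]

/-- Counting pairs with the same image. -/
theorem pairs_card [Zero X] [Zero Y] {μ ν : ℕ} (U : X → Y)
    (hU : ∀ f ∈ E ι X μ, U ∘ f ∈ E ι Y ν) :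
    ((E ι X μ ×ˢ E ι X μ).filter fun p => U ∘ p.1 = U ∘ p.2).card * (E ι Y ν).card =
      (E ι X μ).card ^ 2 := by
  set A := E ι X μ with hA
  set B := E ι Y ν with hB
  have hfib : ∀ y ∈ B, ∀ y' ∈ B, (A.filter fun f => U ∘ f = y).card =
      (A.filter fun f => U ∘ f = y').card := by
    intro y hy y' hy'
    obtain ⟨π, hπ⟩ := E_exists_perm hy hy'
    -- y' ∘ π = y
    refine Finset.card_bij (fun f _ => f ∘ π.symm) ?_ ?_ ?_
    · intro f hf
      rw [mem_filter] at hf ⊢
      refine ⟨E_perm hf.1 _, ?_⟩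
      rw [← Function.comp_assoc, hf.2, ← hπ, Function.comp_assoc]
      simp
    · intro f _ g _ h
      have := congrArg (fun k => k ∘ π) h
      simpa [Function.comp_assoc] using this
    · intro g hg
      rw [mem_filter] at hg
      refine ⟨g ∘ π, ?_, by simp [Function.comp_assoc]⟩
      rw [mem_filter]
      refine ⟨E_perm hg.1 _, ?_⟩
      rw [← Function.comp_assoc, hg.2, hπ]
  have hsum : A.card = ∑ y ∈ B, (A.filter fun f => U ∘ f = y).card :=
    Finset.card_eq_sum_card_fiberwise (f := fun f => U ∘ f) fun f hf => hU f hf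
  have hkey : ∀ f ∈ A, (A.filter fun g => U ∘ f = U ∘ g).card * B.card = A.card := by
    intro f hf
    rw [hsum, Finset.sum_congr rfl (fun y hy => hfib y hy (U ∘ f) (hU f hf)), Finset.sum_const,
      smul_eq_mul, mul_comm]
    congr 2
    ext g
    simp [eq_comm]
  have hpairs : ((A ×ˢ A).filter fun p => U ∘ p.1 = U ∘ p.2).card =
      ∑ f ∈ A, (A.filter fun g => U ∘ f = U ∘ g).card := by
    rw [Finset.card_filter, Finset.sum_product]
    refine Finset.sum_congr rfl fun f _ => ?_
    rw [Finset.card_filter]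
  rw [hpairs, Finset.sum_mul, Finset.sum_congr rfl hkey, Finset.sum_const, smul_eq_mul, sq]

omit [DecidableEq ι] in
theorem cnt_comp (U : X → Y) (f : ι → X) (y : Y) :
    cnt (U ∘ f) y = ∑ x ∈ univ.filter (fun x => U x = y), cnt f x := by
  simp only [cnt]
  rw [Finset.card_eq_sum_card_fiberwise (f := f) (t := univ.filter fun x => U x = y)]
  · refine Finset.sum_congr rfl fun x hx => ?_
    rw [Finset.filter_filter]
    congr 1
    ext i
    simp only [mem_filter, mem_univ, true_and, Function.comp_apply] at hx ⊢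
    constructor
    · exact fun h => h.2
    · exact fun h => ⟨by rw [h]; exact hx, h⟩
  · intro i hi
    simpa using hi

theorem push_mem [Zero X] [Zero Y] {μ k : ℕ} (U : X → Y) (h0 : U 0 = 0)
    (hk : ∀ y, y ≠ 0 → (univ.filter fun x => U x = y).card = k) {f : ι → X}
    (hf : f ∈ E ι X μ) : U ∘ f ∈ E ι Y (k * μ) := by
  rw [mem_E] at hf ⊢
  intro y hy
  rw [cnt_comp, Finset.sum_congr rfl (g := fun _ => μ), Finset.sum_const, hk y hy, smul_eq_mul]
  intro x hx
  rw [mem_filter] at hx
  refine hf x ?_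
  rintro rfl
  exact hy (hx.2 ▸ h0)

/-- The number of functions with given fibre sizes. -/
theorem class_card (c : X → ℕ) (hc : ∑ a, c a = Fintype.card ι) :
    (univ.filter fun f : ι → X => ∀ a, cnt f a = c a).card * ∏ a, (c a).factorial =
      (Fintype.card ι).factorial := by
  -- a function with these fibre sizes
  obtain ⟨e⟩ : Nonempty (ι ≃ Σ a, Fin (c a)) := by
    refine ⟨Fintype.equivOfCardEq ?_⟩
    rw [Fintype.card_sigma]
    simp [hc]
  set f0 : ι → X := fun i => (e i).1 with hf0
  have hf0c : ∀ a, cnt f0 a = c a := by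
    intro a
    unfold cnt
    have : (univ.filter fun i => f0 i = a).card = Fintype.card {i // f0 i = a} := by
      rw [Fintype.card_subtype]
    rw [this]
    have e2 : {i // f0 i = a} ≃ {p : Σ a, Fin (c a) // p.1 = a} :=
      Equiv.subtypeEquiv e (fun i => Iff.rfl)
    rw [Fintype.card_congr e2, Fintype.card_congr (Equiv.sigmaSubtype a)]
    simp
  set A := univ.filter fun f : ι → X => ∀ a, cnt f a = c a with hA
  have hmaps : ∀ π : Equiv.Perm ι, π ∈ (univ : Finset (Equiv.Perm ι)) → f0 ∘ π ∈ A := by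
    intro π _
    rw [hA, mem_filter]
    exact ⟨mem_univ _, fun a => by rw [cnt_comp_perm, hf0c]⟩
  have h1 := Finset.card_eq_sum_card_fiberwise (f := fun π : Equiv.Perm ι => f0 ∘ π)
    (s := univ) (t := A) hmaps
  rw [Finset.card_univ, Fintype.card_perm] at h1
  rw [h1]
  have h2 : ∀ f ∈ A, (univ.filter fun π : Equiv.Perm ι => f0 ∘ π = f).card =
      ∏ a, (c a).factorial := by
    intro f hf
    rw [hA, mem_filter] at hf
    obtain ⟨π0, hπ0⟩ := exists_perm f f0 fun a => by rw [hf.2 a, hf0c]
    have h3 := DomMulAct.stabilizer_card f0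
    have h4 : ∀ a, Fintype.card {i // f0 i = a} = c a := by
      intro a
      rw [Fintype.card_subtype]
      exact hf0c a
    simp only [h4] at h3
    rw [← h3, Fintype.card_subtype]
    refine Finset.card_bij (fun π _ => π * π0⁻¹) ?_ ?_ ?_
    · intro π hπ
      rw [mem_filter] at hπ ⊢
      refine ⟨mem_univ _, ?_⟩
      rw [Equiv.Perm.coe_mul, ← Function.comp_assoc, hπ.2, ← hπ0, Function.comp_assoc]
      funext i
      simp
    · intro π _ π' _ h
      exact mul_right_cancel h
    · intro g hg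
      rw [mem_filter] at hg
      refine ⟨g * π0, ?_, by simp⟩
      rw [mem_filter]
      refine ⟨mem_univ _, ?_⟩
      rw [Equiv.Perm.coe_mul, ← Function.comp_assoc, hg.2, hπ0]
  rw [Finset.sum_congr rfl h2, Finset.sum_const, smul_eq_mul]

end General

end Pool.Agent.R105.KL
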