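import Mathlib
import Pool.Agent.R105.KL.Comp

/-! Log-concavity of the numbers of projections. -/

set_option autoImplicit false
set_option linter.unusedSectionVars false

namespace Pool.Agent.R105.KL

open Finset

theorem nat_conc (N : ℕ → ℕ) (t : ℕ) (h0 : N 0 = 1) (hpos : ∀ j, j ≤ t → 0 < N j)
    (hlc : ∀ j, j + 2 ≤ t → N (j + 2) * N j ≤ N (j + 1) ^ 2) :
    ∀ s, s ≤ t → ∀ j, j ≤ s → N s ^ j ≤ N j ^ s := by
  have hA : ∀ j, j + 1 ≤ t → N (j + 1) ^ j ≤ N j ^ (j + 1) := by
    intro j
    induction j with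
    | zero => intro _; simp [h0]
    | succ j ih =>
      intro hj
      have h1 := ih (by omega)
      have h2 := hlc j (by omega)
      -- N (j+2)^(j+1) * N (j+1)^j ≤ N (j+2)^(j+1) * N j^(j+1) ≤ N(j+1)^(2(j+1))
      have h3 : N (j + 2) ^ (j + 1) * N (j + 1) ^ j ≤ N (j + 1) ^ (j + 2) * N (j + 1) ^ j := by
        calc N (j + 2) ^ (j + 1) * N (j + 1) ^ j
            ≤ N (j + 2) ^ (j + 1) * N j ^ (j + 1) := Nat.mul_le_mul_left _ h1
          _ = (N (j + 2) * N j) ^ (j + 1) := (mul_pow _ _ _).symm
          _ ≤ (N (j + 1) ^ 2) ^ (j + 1) := Nat.pow_le_pow_left h2 _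
          _ = N (j + 1) ^ (j + 2) * N (j + 1) ^ j := by ring
      exact Nat.le_of_mul_le_mul_right h3 (pow_pos (hpos _ (by omega)) _)
  intro s
  induction s with
  | zero =>
    intro _ j hj
    obtain rfl : j = 0 := by omega
    simp
  | succ s ih =>
    intro hs j hj
    rcases Nat.lt_or_ge s j with h | h
    · obtain rfl : j = s + 1 := by omega
      exact le_rfl
    · rcases Nat.eq_zero_or_pos s with rfl | hs0
      · obtain rfl : j = 0 := by omega
        simp [h0]
      · have h1 := ih (by omega) j h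
        have h2 : (N (s + 1) ^ j) ^ s ≤ (N j ^ (s + 1)) ^ s := by
          calc (N (s + 1) ^ j) ^ s = (N (s + 1) ^ s) ^ j := by ring
            _ ≤ (N s ^ (s + 1)) ^ j := Nat.pow_le_pow_left (hA s (by omega)) _
            _ = (N s ^ j) ^ (s + 1) := by ring
            _ ≤ (N j ^ s) ^ (s + 1) := Nat.pow_le_pow_left h1 _
            _ = (N j ^ (s + 1)) ^ s := by ring
        exact (Nat.pow_le_pow_iff_left (by omega)).1 h2

variable {F : Type} [Field F] [Fintype F] [DecidableEq F] {ι : Type} [Fintype ι] [DecidableEq ι]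

theorem fiber_card {a b : ℕ} (U : (Fin a → F) →ₗ[F] (Fin b → F)) (hU : Function.Surjective U)
    (hab : b ≤ a) (y : Fin b → F) :
    (univ.filter fun x => U x = y).card = Fintype.card F ^ (a - b) := by
  have h1 : ∀ y : Fin b → F, (univ.filter fun x => U x = y).card =
      (univ.filter fun x => U x = 0).card := by
    intro y
    obtain ⟨x0, hx0⟩ := hU y
    refine Finset.card_bij (fun x _ => x - x0) ?_ ?_ ?_
    · intro x hx
      rw [mem_filter] at hx ⊢
      exact ⟨mem_univ _, by rw [map_sub, hx.2, hx0, sub_self]⟩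
    · intro x _ x' _ h
      exact sub_left_injective h
    · intro x hx
      rw [mem_filter] at hx
      exact ⟨x + x0, by rw [mem_filter]; exact ⟨mem_univ _, by rw [map_add, hx.2, hx0, zero_add]⟩,
        by simp⟩
  have h2 := Finset.card_eq_sum_card_fiberwise (f := fun x => U x) (s := univ)
    (t := (univ : Finset (Fin b → F))) (fun _ _ => mem_univ _)
  rw [Finset.sum_congr rfl fun y _ => h1 y, Finset.sum_const, smul_eq_mul, card_univ, card_univ,
    Fintype.card_fun, Fintype.card_fun, Fintype.card_fin, Fintype.card_fin] at h2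
  rw [h1 y]
  have hq : 0 < Fintype.card F := Fintype.card_pos
  have h3 : Fintype.card F ^ a = Fintype.card F ^ b * Fintype.card F ^ (a - b) := by
    rw [← pow_add]; congr 1; omega
  rw [h3] at h2
  exact (Nat.eq_of_mul_eq_mul_left (pow_pos hq b) h2).symm

theorem push_E {a b μ : ℕ} (U : (Fin a → F) →ₗ[F] (Fin b → F)) (hU : Function.Surjective U)
    (hab : b ≤ a) {f : ι → Fin a → F} (hf : f ∈ E ι (Fin a → F) μ) :
    (fun i => U (f i)) ∈ E ι (Fin b → F) (Fintype.card F ^ (a - b) * μ) :=
  push_mem (fun x => U x) (map_zero U) (fun y _ => fiber_card U hU hab y) hf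

/-- The number of functions `ι → F^j` which take each nonzero value `m q^(t-j)` times. -/
def N (F ι : Type) [Field F] [Fintype F] [DecidableEq F] [Fintype ι] [DecidableEq ι] (t m j : ℕ) :
    ℕ := (E ι (Fin j → F) (Fintype.card F ^ (t - j) * m)).card

theorem push_N {t m j b : ℕ} (U : (Fin j → F) →ₗ[F] (Fin b → F)) (hU : Function.Surjective U)
    (hb : b ≤ j) (hj : j ≤ t) {f : ι → Fin j → F}
    (hf : f ∈ E ι (Fin j → F) (Fintype.card F ^ (t - j) * m)) :
    (fun i => U (f i)) ∈ E ι (Fin b → F) (Fintype.card F ^ (t - b) * m) := by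
  have := push_E U hU hb hf
  rwa [← mul_assoc, ← pow_add, show j - b + (t - j) = t - b by omega] at this

theorem N_zero (t m : ℕ) : N F ι t m 0 = 1 := by
  unfold N
  rw [Finset.card_eq_one]
  refine ⟨fun _ => 0, ?_⟩
  ext f
  rw [mem_E, mem_singleton]
  constructor
  · intro _
    funext i
    exact Subsingleton.elim _ _
  · rintro rfl a ha
    exact absurd (Subsingleton.elim a 0) ha

theorem N_pos {t m j : ℕ} (hj : j ≤ t) (h : 0 < N F ι t m t) : 0 < N F ι t m j := by
  unfold N at h ⊢
  rw [Finset.card_pos] at h ⊢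
  obtain ⟨f, hf⟩ := h
  exact ⟨_, push_N (LinearMap.funLeft F F (Fin.castLE hj))
    (LinearMap.funLeft_surjective_of_injective F F _ (Fin.castLE_injective hj)) hj le_rfl hf⟩

theorem N_logconcave {t m j : ℕ} (hj : j + 2 ≤ t) (hpos : 0 < N F ι t m j) :
    N F ι t m (j + 2) * N F ι t m j ≤ N F ι t m (j + 1) ^ 2 := by
  have hS : Function.Surjective (LinearMap.funLeft F F (Fin.succ : Fin j → Fin (j + 1))) :=
    LinearMap.funLeft_surjective_of_injective F F _ (Fin.succ_injective _)
  have h := pairs_card (ι := ι) (μ := Fintype.card F ^ (t - (j + 1)) * m)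
    (ν := Fintype.card F ^ (t - j) * m)
    (fun x => LinearMap.funLeft F F (Fin.succ : Fin j → Fin (j + 1)) x)
    (fun f hf => push_N _ hS (by omega) (by omega) hf)
  unfold N
  rw [← h]
  refine Nat.mul_le_mul_right _ ?_
  have h0 : Function.Surjective (LinearMap.funLeft F F (Fin.succ : Fin (j + 1) → Fin (j + 2))) :=
    LinearMap.funLeft_surjective_of_injective F F _ (Fin.succ_injective _)
  have h1 : Function.Surjective
      (LinearMap.funLeft F F (Fin.succAbove 1 : Fin (j + 1) → Fin (j + 2))) :=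
    LinearMap.funLeft_surjective_of_injective F F _ Fin.succAbove_right_injective
  refine Finset.card_le_card_of_injOn
    (fun f => (fun i => LinearMap.funLeft F F (Fin.succ : Fin (j + 1) → Fin (j + 2)) (f i),
      fun i => LinearMap.funLeft F F (Fin.succAbove 1 : Fin (j + 1) → Fin (j + 2)) (f i))) ?_ ?_
  · intro f hf
    rw [Finset.mem_coe] at hf
    rw [Finset.mem_coe, mem_filter, mem_product]
    refine ⟨⟨push_N _ h0 (by omega) hj hf, push_N _ h1 (by omega) hj hf⟩, ?_⟩
    funext i k
    simp only [Function.comp_apply, LinearMap.funLeft_apply]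
    congr 1
  · intro f _ g _ hfg
    simp only [Prod.mk.injEq] at hfg
    funext i k
    obtain ⟨e1, e2⟩ := hfg
    have e1' := congrFun e1 i
    have e2' := congrFun e2 i
    refine Fin.cases ?_ ?_ k
    · have := congrFun e2' 0
      simpa [LinearMap.funLeft_apply] using this
    · intro k
      have := congrFun e1' k
      simpa [LinearMap.funLeft_apply] using this

theorem N_conc {t m j : ℕ} (hj : j ≤ t) (h : 0 < N F ι t m t) :
    N F ι t m t ^ j ≤ N F ι t m j ^ t :=
  nat_conc (N F ι t m) t (N_zero t m) (fun _ hj => N_pos hj h)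
    (fun _ hj => N_logconcave hj (N_pos (by omega) h)) t le_rfl j hj

end Pool.Agent.R105.KL
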