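import Mathlib
import Pool.Agent.R105.KL.Conc

/-! The second moment of the number of representations of a syndrome. -/

set_option autoImplicit false
set_option linter.unusedSectionVars false

namespace Pool.Agent.R105.KL

open Finset

variable {F : Type} [Field F] [Fintype F] [DecidableEq F] {ι : Type} [Fintype ι] [DecidableEq ι]

/-- The syndrome of the matrix with columns `e j` for the parity check matrix with columns `h j`. -/
def syn {t R : ℕ} (h : ι → Fin R → F) (e : ι → Fin t → F) : Fin t → Fin R → F :=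
  fun i => ∑ j, e j i • h j

theorem syn_sub {t R : ℕ} (h : ι → Fin R → F) (e e' : ι → Fin t → F) :
    syn h (fun j => e j - e' j) = syn h e - syn h e' := by
  funext i
  simp [syn, sub_smul, Finset.sum_sub_distrib]

/-- Few parity check matrices kill a matrix of large rank. -/
theorem kill_card {t R : ℕ} (D : ι → Fin t → F) :
    (univ.filter fun h : ι → Fin R → F => syn h D = 0).card *
      Fintype.card (Fin R → F) ^ Module.finrank F (Submodule.span F (Set.range D)) ≤
    Fintype.card (Fin R → F) ^ Fintype.card ι := by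
  classical
  obtain ⟨κ, a, ha, hspan, hli⟩ := exists_linearIndependent' F D
  have : Finite κ := Finite.of_injective a ha
  have : Fintype κ := Fintype.ofFinite κ
  have hr : Module.finrank F (Submodule.span F (Set.range D)) = Fintype.card κ := by
    rw [← hspan, finrank_span_eq_card hli]
  rw [hr, ← Fintype.card_fun, ← Fintype.card_fun, ← card_univ, ← card_univ (α := ι → Fin R → F),
    ← card_product]
  refine Finset.card_le_card_of_injOn (fun p => Function.extend a p.2 p.1)
    (fun _ _ => mem_coe.2 (mem_univ _)) ?_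
  rintro ⟨h, g⟩ hp ⟨h', g'⟩ hp' heq
  simp only [coe_product, coe_filter, mem_univ, true_and, Set.mem_prod] at hp hp'
  have hh : syn h D = 0 := hp.1
  have hh' : syn h' D = 0 := hp'.1
  simp only at heq
  have hg : g = g' := by
    funext k
    have := congrFun heq (a k)
    rwa [ha.extend_apply, ha.extend_apply] at this
  have hoff : ∀ j, (¬ ∃ k, a k = j) → h j = h' j := by
    intro j hj
    have := congrFun heq j
    rwa [Function.extend_apply' _ _ _ hj, Function.extend_apply' _ _ _ hj] at this
  have hon : ∀ k, h (a k) = h' (a k) := by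
    intro k
    funext c
    have hlin := Fintype.linearIndependent_iff.1 hli (fun k => h (a k) c - h' (a k) c) ?_ k
    · exact sub_eq_zero.1 hlin
    · funext i
      have h1 : ∑ j, D j i • (h j - h' j) = 0 := by
        have e1 := congrFun hh i
        have e2 := congrFun hh' i
        simp only [syn, Pi.zero_apply] at e1 e2
        simp only [smul_sub, Finset.sum_sub_distrib, e1, e2, sub_zero]
      have h2 : ∑ k, D (a k) i • (h (a k) - h' (a k)) = ∑ j, D j i • (h j - h' j) := by
        refine Fintype.sum_of_injective a ha _ _ ?_ (fun _ => rfl)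
        intro j hj
        rw [hoff j (by simpa using hj), sub_self, smul_zero]
      rw [h1] at h2
      have h3 := congrFun h2 c
      simp only [Finset.sum_apply, Pi.smul_apply, Pi.sub_apply, smul_eq_mul, Pi.zero_apply] at h3
      simp only [Finset.sum_apply, Pi.smul_apply, Function.comp_apply, smul_eq_mul, Pi.zero_apply]
      rw [← h3]
      exact Finset.sum_congr rfl fun k _ => mul_comm _ _
  have hhh : h = h' := by
    funext j
    by_cases hj : ∃ k, a k = j
    · obtain ⟨k, rfl⟩ := hj
      exact hon k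
    · exact hoff j hj
  rw [hg, hhh]

noncomputable instance fintypeLin (F : Type) [Field F] [Fintype F] (t j : ℕ) :
    Fintype ((Fin t → F) →ₗ[F] (Fin j → F)) :=
  haveI : Finite ((Fin t → F) →ₗ[F] (Fin j → F)) := Module.finite_of_finite F
  Fintype.ofFinite _

open Classical in
/-- The surjective linear maps `F^t → F^j`. -/
noncomputable def Sur (F : Type) [Field F] [Fintype F] (t j : ℕ) :
    Finset ((Fin t → F) →ₗ[F] (Fin j → F)) :=
  univ.filter fun U => Function.Surjective U

theorem mem_Sur {t j : ℕ} {U : (Fin t → F) →ₗ[F] (Fin j → F)} :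
    U ∈ Sur F t j ↔ Function.Surjective U := by
  unfold Sur
  simp only [mem_filter, mem_univ, true_and]

theorem exists_sur {t : ℕ} (D : ι → Fin t → F) :
    ∃ j ≤ t, Module.finrank F (Submodule.span F (Set.range D)) + j = t ∧
      ∃ U ∈ Sur F t j, ∀ i, U (D i) = 0 := by
  classical
  set L := Submodule.span F (Set.range D) with hL
  have hle : Module.finrank F L ≤ t := by
    have := Submodule.finrank_le L
    simpa using this
  have hq : Module.finrank F ((Fin t → F) ⧸ L) = t - Module.finrank F L := by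
    have := Submodule.finrank_quotient_add_finrank L
    rw [Module.finrank_fin_fun] at this
    omega
  refine ⟨t - Module.finrank F L, Nat.sub_le _ _, by omega, ?_⟩
  have e : ((Fin t → F) ⧸ L) ≃ₗ[F] (Fin (t - Module.finrank F L) → F) :=
    LinearEquiv.ofFinrankEq _ _ (by rw [hq, Module.finrank_fin_fun])
  refine ⟨e.toLinearMap ∘ₗ L.mkQ, ?_, ?_⟩
  · rw [mem_Sur, LinearMap.coe_comp]
    exact e.surjective.comp (Submodule.mkQ_surjective L)
  · intro i
    have : D i ∈ L := Submodule.subset_span ⟨i, rfl⟩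
    simp [(Submodule.Quotient.mk_eq_zero L).2 this]

open Classical in
/-- weight of a difference -/
noncomputable def W {t : ℕ} (Q : ℕ) (D : ι → Fin t → F) : ℕ :=
  ∑ j ∈ range (t + 1), ∑ _U ∈ (Sur F t j).filter (fun U => ∀ i, U (D i) = 0), Q ^ j

theorem kill_le {t R : ℕ} (D : ι → Fin t → F) :
    (univ.filter fun h : ι → Fin R → F => syn h D = 0).card * Fintype.card (Fin R → F) ^ t ≤
      Fintype.card (Fin R → F) ^ Fintype.card ι * W (Fintype.card (Fin R → F)) D := by
  classical
  obtain ⟨j, hj, hrj, U, hU, hUD⟩ := exists_sur D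
  have h1 := kill_card (R := R) D
  set Q := Fintype.card (Fin R → F)
  set r := Module.finrank F (Submodule.span F (Set.range D))
  have h2 : Q ^ j ≤ W Q D := by
    unfold W
    calc Q ^ j ≤ ∑ _U ∈ (Sur F t j).filter (fun U => ∀ i, U (D i) = 0), Q ^ j :=
          Finset.single_le_sum (f := fun _ => Q ^ j) (fun _ _ => Nat.zero_le _)
            (mem_filter.2 ⟨hU, hUD⟩)
      _ ≤ _ := Finset.single_le_sum
            (f := fun j => ∑ _U ∈ (Sur F t j).filter (fun U => ∀ i, U (D i) = 0), Q ^ j)
            (fun _ _ => Nat.zero_le _) (mem_range.2 (by omega))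
  have h3 : Q ^ t = Q ^ r * Q ^ j := by rw [← pow_add, hrj]
  rw [h3, ← mul_assoc]
  exact Nat.mul_le_mul h1 h2

/-- A constant depending on `F` and `t`. -/
noncomputable def K (F : Type) [Field F] [Fintype F] (t : ℕ) : ℕ :=
  ∑ j ∈ range (t + 1), (Sur F t j).card

theorem sum_W {t m R L : ℕ}
    (hL : ∀ j, 1 ≤ j → j ≤ t → Fintype.card (Fin R → F) ^ j * L ≤ N F ι t m j) :
    (∑ p ∈ E ι (Fin t → F) m ×ˢ E ι (Fin t → F) m,
      W (Fintype.card (Fin R → F)) (fun i => p.1 i - p.2 i)) * L ≤
      (E ι (Fin t → F) m).card ^ 2 * (L + K F t) := by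
  classical
  set Q := Fintype.card (Fin R → F)
  set A := E ι (Fin t → F) m with hA
  have hAt : A = E ι (Fin t → F) (Fintype.card F ^ (t - t) * m) := by simp [hA]
  have h1 : ∑ p ∈ A ×ˢ A, W Q (fun i => p.1 i - p.2 i) =
      ∑ j ∈ range (t + 1), ∑ U ∈ Sur F t j,
        ((A ×ˢ A).filter fun p => (fun x => U x) ∘ p.1 = (fun x => U x) ∘ p.2).card * Q ^ j := by
    unfold W
    rw [Finset.sum_comm]
    refine Finset.sum_congr rfl fun j _ => ?_
    simp only [Finset.sum_filter]
    rw [Finset.sum_comm]
    refine Finset.sum_congr rfl fun U _ => ?_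
    rw [Finset.card_filter, Finset.sum_mul]
    refine Finset.sum_congr rfl fun p _ => ?_
    have : (∀ i, U (p.1 i - p.2 i) = 0) ↔
        (fun x => U x) ∘ p.1 = (fun x => U x) ∘ p.2 := by
      rw [funext_iff]
      refine forall_congr' fun i => ?_
      rw [map_sub, sub_eq_zero]
      rfl
    by_cases hp : (fun x => U x) ∘ p.1 = (fun x => U x) ∘ p.2
    · rw [if_pos (this.2 hp), if_pos hp, one_mul]
    · rw [if_neg (fun h => hp (this.1 h)), if_neg hp, zero_mul]
  have hpair : ∀ j, j ≤ t → ∀ U ∈ Sur F t j,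
      ((A ×ˢ A).filter fun p => (fun x => U x) ∘ p.1 = (fun x => U x) ∘ p.2).card *
        N F ι t m j = A.card ^ 2 := by
    intro j hj U hU
    rw [mem_Sur] at hU
    rw [hAt]
    refine pairs_card (fun x => U x) fun f hf => ?_
    exact push_N U hU hj le_rfl hf
  rw [h1, Finset.sum_mul, Finset.sum_range_succ', K, Finset.sum_range_succ']
  have hz : (∑ U ∈ Sur F t 0,
      ((A ×ˢ A).filter fun p => (fun x => U x) ∘ p.1 = (fun x => U x) ∘ p.2).card * Q ^ 0) * L ≤
      A.card ^ 2 * (L + (Sur F t 0).card) := by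
    have hc : (Sur F t 0).card ≤ 1 := by
      rw [Finset.card_le_one]
      intro U _ U' _
      ext x i
      exact i.elim0
    rw [Finset.sum_mul]
    calc ∑ U ∈ Sur F t 0, ((A ×ˢ A).filter fun p =>
          (fun x => U x) ∘ p.1 = (fun x => U x) ∘ p.2).card * Q ^ 0 * L
        ≤ ∑ U ∈ Sur F t 0, A.card ^ 2 * L := by
          refine Finset.sum_le_sum fun U _ => Nat.mul_le_mul_right _ ?_
          rw [pow_zero, mul_one]
          refine (Finset.card_filter_le _ _).trans ?_
          rw [card_product, sq]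
      _ = (Sur F t 0).card * (A.card ^ 2 * L) := by rw [Finset.sum_const, smul_eq_mul]
      _ ≤ 1 * (A.card ^ 2 * L) := Nat.mul_le_mul_right _ hc
      _ ≤ _ := by rw [one_mul]; exact Nat.mul_le_mul_left _ (Nat.le_add_right _ _)
  have hs : ∑ j ∈ range t, (∑ U ∈ Sur F t (j + 1),
      ((A ×ˢ A).filter fun p => (fun x => U x) ∘ p.1 = (fun x => U x) ∘ p.2).card *
        Q ^ (j + 1)) * L ≤ ∑ j ∈ range t, A.card ^ 2 * (Sur F t (j + 1)).card := by
    refine Finset.sum_le_sum fun j hj => ?_
    rw [mem_range] at hj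
    rw [Finset.sum_mul, mul_comm (A.card ^ 2), ← smul_eq_mul ((Sur F t (j + 1)).card),
      ← Finset.sum_const]
    refine Finset.sum_le_sum fun U hU => ?_
    rw [← hpair (j + 1) hj U hU, mul_assoc]
    exact Nat.mul_le_mul_left _ (hL (j + 1) (by omega) hj)
  rw [← Finset.mul_sum] at hs
  calc _ ≤ A.card ^ 2 * ∑ j ∈ range t, (Sur F t (j + 1)).card +
        A.card ^ 2 * (L + (Sur F t 0).card) := Nat.add_le_add hs hz
    _ = _ := by ring

/-- Existence of a good parity check matrix. -/
theorem exists_parity {t m R L : ℕ} (hpos : 0 < (E ι (Fin t → F) m).card)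
    (hL : ∀ j, 1 ≤ j → j ≤ t → Fintype.card (Fin R → F) ^ j * L ≤ N F ι t m j) :
    ∃ h : ι → Fin R → F,
      (univ.filter fun s : Fin t → Fin R → F => ∀ e ∈ E ι (Fin t → F) m, syn h e ≠ s).card * L ≤
        Fintype.card (Fin t → Fin R → F) * K F t := by
  classical
  set Q := Fintype.card (Fin R → F) with hQ
  set A := E ι (Fin t → F) m with hA
  set Coll : (ι → Fin R → F) → ℕ := fun h =>
    ((A ×ˢ A).filter fun p => syn h p.1 = syn h p.2).card with hColl
  have hG : Fintype.card (Fin t → Fin R → F) = Q ^ t := by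
    rw [Fintype.card_fun, Fintype.card_fin]
  have hH : Fintype.card (ι → Fin R → F) = Q ^ Fintype.card ι := by
    rw [Fintype.card_fun]
  -- the average number of collisions
  have hsum : (∑ h : ι → Fin R → F, Coll h * Q ^ t * L) ≤
      ∑ _h : ι → Fin R → F, A.card ^ 2 * (L + K F t) := by
    rw [Finset.sum_const, card_univ, hH, smul_eq_mul, ← Finset.sum_mul, ← Finset.sum_mul]
    have h1 : ∑ h : ι → Fin R → F, Coll h = ∑ p ∈ A ×ˢ A,
        (univ.filter fun h : ι → Fin R → F => syn h (fun i => p.1 i - p.2 i) = 0).card := by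
      simp only [hColl, Finset.card_filter]
      rw [Finset.sum_comm]
      refine Finset.sum_congr rfl fun p _ => Finset.sum_congr rfl fun h _ => ?_
      rw [syn_sub]
      simp only [sub_eq_zero]
    rw [h1, Finset.sum_mul]
    calc (∑ p ∈ A ×ˢ A, (univ.filter fun h : ι → Fin R → F =>
            syn h (fun i => p.1 i - p.2 i) = 0).card * Q ^ t) * L
        ≤ (∑ p ∈ A ×ˢ A, Q ^ Fintype.card ι * W Q (fun i => p.1 i - p.2 i)) * L :=
          Nat.mul_le_mul_right _ (Finset.sum_le_sum fun p _ => kill_le _)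
      _ = Q ^ Fintype.card ι * ((∑ p ∈ A ×ˢ A, W Q (fun i => p.1 i - p.2 i)) * L) := by
          rw [← Finset.mul_sum]; ring
      _ ≤ _ := Nat.mul_le_mul_left _ (sum_W hL)
  obtain ⟨h, -, hh⟩ := Finset.exists_le_of_sum_le
    (⟨0, mem_univ _⟩ : (univ : Finset (ι → Fin R → F)).Nonempty) hsum
  refine ⟨h, ?_⟩
  set B := univ.filter fun s : Fin t → Fin R → F => ∃ e ∈ A, syn h e = s with hB
  set B' := univ.filter fun s : Fin t → Fin R → F => ∀ e ∈ A, syn h e ≠ s with hB'
  have hBB : B.card + B'.card = Q ^ t := by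
    rw [← hG, ← card_univ, ← Finset.card_filter_add_card_filter_not (s := univ)
      (fun s : Fin t → Fin R → F => ∃ e ∈ A, syn h e = s)]
    congr 2
    ext s
    simp [hB']
  set f : (Fin t → Fin R → F) → ℕ := fun s => (A.filter fun e => syn h e = s).card with hf
  have hA1 : A.card = ∑ s ∈ B, f s := by
    refine Finset.card_eq_sum_card_fiberwise (f := syn h) fun e he => ?_
    rw [hB, Finset.mem_coe, mem_filter]
    exact ⟨mem_univ _, e, he, rfl⟩
  have hC1 : Coll h = ∑ s ∈ B, f s ^ 2 := by
    simp only [hColl]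
    rw [Finset.card_eq_sum_card_fiberwise (f := fun p => syn h p.1) (t := B)]
    · refine Finset.sum_congr rfl fun s _ => ?_
      rw [hf, sq, ← card_product]
      congr 1
      ext p
      simp only [mem_filter, mem_product]
      constructor
      · rintro ⟨⟨⟨h1, h2⟩, h3⟩, h4⟩
        exact ⟨⟨h1, h4⟩, h2, h3 ▸ h4⟩
      · rintro ⟨⟨h1, h4⟩, h2, h3⟩
        exact ⟨⟨⟨h1, h2⟩, by rw [h4, h3]⟩, h4⟩
    · intro p hp
      rw [Finset.mem_coe, mem_filter, mem_product] at hp
      rw [hB, Finset.mem_coe, mem_filter]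
      exact ⟨mem_univ _, p.1, hp.1.1, rfl⟩
  have hCS : A.card ^ 2 ≤ B.card * Coll h := by
    rw [hA1, hC1]
    exact_mod_cast sq_sum_le_card_mul_sum_sq (s := B) (f := f)
  have key : Q ^ t * L ≤ B.card * (L + K F t) := by
    have h1 : A.card ^ 2 * (Q ^ t * L) ≤ A.card ^ 2 * (B.card * (L + K F t)) := by
      calc A.card ^ 2 * (Q ^ t * L) ≤ B.card * Coll h * (Q ^ t * L) :=
            Nat.mul_le_mul_right _ hCS
        _ = B.card * (Coll h * Q ^ t * L) := by ring
        _ ≤ B.card * (A.card ^ 2 * (L + K F t)) := Nat.mul_le_mul_left _ hh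
        _ = _ := by ring
    exact Nat.le_of_mul_le_mul_left h1 (pow_pos hpos 2)
  rw [hG]
  have : B'.card * L + B.card * L = Q ^ t * L := by rw [← hBB]; ring
  have h5 : B.card * K F t ≤ Q ^ t * K F t := Nat.mul_le_mul_right _ (by omega)
  nlinarith

end Pool.Agent.R105.KL
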