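import Mathlib
import Pool.Agent.R105.KL.Moment

/-! From a parity check matrix with few uncovered syndromes to a covering code. -/

set_option autoImplicit false
set_option linter.unusedSectionVars false

namespace Pool.Agent.R105.KL

open Finset

/-- A few translates of a dense set cover a finite group. -/
theorem translates {G : Type} [AddCommGroup G] [Fintype G] [DecidableEq G] (B : Finset G) (M : ℕ)
    (h : B.card ^ M * Fintype.card G < Fintype.card G ^ M) :
    ∃ b : Fin M → G, ∀ s, ∃ i, s - b i ∉ B := by
  have h1 : ∀ s : G, (univ.filter fun b : Fin M → G => ∀ i, s - b i ∈ B).card = B.card ^ M := by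
    intro s
    have : (univ.filter fun b : Fin M → G => ∀ i, s - b i ∈ B) =
        Fintype.piFinset fun _ : Fin M => B.image fun g => s - g := by
      ext b
      simp only [mem_filter, mem_univ, true_and, Fintype.mem_piFinset, mem_image]
      refine forall_congr' fun i => ⟨fun h => ⟨_, h, by abel⟩, ?_⟩
      rintro ⟨g, hg, hgb⟩
      rw [← hgb]
      simpa using hg
    rw [this, Fintype.card_piFinset_const, Finset.card_image_of_injective _ sub_right_injective]
    try simp
  have h2 : ∑ b : Fin M → G, (univ.filter fun s => ∀ i, s - b i ∈ B).card <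
      ∑ _b : Fin M → G, 1 := by
    calc ∑ b : Fin M → G, (univ.filter fun s => ∀ i, s - b i ∈ B).card
        = ∑ s : G, (univ.filter fun b : Fin M → G => ∀ i, s - b i ∈ B).card := by
          simp only [Finset.card_filter]
          exact Finset.sum_comm
      _ = Fintype.card G * B.card ^ M := by
          rw [Finset.sum_congr rfl fun s _ => h1 s, Finset.sum_const, card_univ, smul_eq_mul]
      _ < Fintype.card G ^ M := by rwa [mul_comm]
      _ = ∑ _b : Fin M → G, 1 := by simp
  obtain ⟨b, -, hb⟩ := Finset.exists_lt_of_sum_lt h2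
  refine ⟨b, fun s => ?_⟩
  rw [Nat.lt_one_iff, Finset.card_eq_zero] at hb
  by_contra hs
  push Not at hs
  have : s ∈ (univ.filter fun s => ∀ i, s - b i ∈ B) := by simpa using hs
  rw [hb] at this
  exact absurd this (Finset.notMem_empty s)

variable {F : Type} [Field F] [Fintype F] [DecidableEq F] {ι κ : Type} [Fintype ι] [DecidableEq ι]
  [Fintype κ] [DecidableEq κ]

/-- Every `t × ι` matrix differs in at most `r` columns from a matrix with rows in `C`. -/
def Cov (t r : ℕ) (C : Set (ι → F)) : Prop :=
  ∀ u : Fin t → ι → F, ∃ c : Fin t → ι → F, (∀ k, c k ∈ C) ∧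
    (univ.filter fun j => ∃ k, c k j ≠ u k j).card ≤ r

theorem weight_E {X : Type} [Fintype X] [DecidableEq X] [Zero X] {m : ℕ} {e : ι → X}
    (he : e ∈ E ι X m) : (univ.filter fun j => e j ≠ 0).card = m * (Fintype.card X - 1) := by
  rw [Finset.card_eq_sum_card_fiberwise (f := e) (t := univ.erase 0)]
  · rw [Finset.sum_congr rfl (g := fun _ => m), Finset.sum_const, card_erase_of_mem (mem_univ _),
      card_univ, smul_eq_mul, mul_comm]
    intro x hx
    have hx0 := Finset.ne_of_mem_erase hx
    rw [mem_E] at he
    rw [← he x hx0, cnt, Finset.filter_filter]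
    congr 1
    ext j
    simp only [mem_filter, mem_univ, true_and]
    exact ⟨fun h => h.2, fun h => ⟨by rw [h]; exact hx0, h⟩⟩
  · intro j hj
    simpa using hj

theorem exists_code {t m R L M : ℕ} (ht : 0 < t) (hpos : 0 < (E ι (Fin t → F) m).card)
    (hL : ∀ j, 1 ≤ j → j ≤ t → Fintype.card (Fin R → F) ^ j * L ≤ N F ι t m j)
    (hM : K F t ^ M * Fintype.card (Fin t → Fin R → F) < L ^ M) :
    ∃ C : Submodule F (ι ⊕ Fin M × Fin t → F),
      Cov t (m * (Fintype.card (Fin t → F) - 1) + t) (C : Set (ι ⊕ Fin M × Fin t → F)) ∧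
      Module.finrank F C + R = Fintype.card ι + M * t := by
  classical
  obtain ⟨h, hh⟩ := exists_parity (ι := ι) (m := m) hpos hL
  set B := univ.filter fun s : Fin t → Fin R → F => ∀ e ∈ E ι (Fin t → F) m, syn h e ≠ s with hB
  have hBM : B.card ^ M * Fintype.card (Fin t → Fin R → F) <
      Fintype.card (Fin t → Fin R → F) ^ M := by
    set G := Fintype.card (Fin t → Fin R → F)
    have hG : 0 < G := Fintype.card_pos
    have h1 : B.card ^ M * G * L ^ M < G ^ M * L ^ M := by
      calc B.card ^ M * G * L ^ M = (B.card * L) ^ M * G := by rw [mul_pow]; ring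
        _ ≤ (G * K F t) ^ M * G := Nat.mul_le_mul_right _ (Nat.pow_le_pow_left hh M)
        _ = G ^ M * (K F t ^ M * G) := by rw [mul_pow]; ring
        _ < G ^ M * L ^ M := Nat.mul_lt_mul_of_pos_left hM (pow_pos hG M)
    exact lt_of_mul_lt_mul_right h1 (Nat.zero_le _)
  obtain ⟨b, hb⟩ := translates B M hBM
  -- the parity check map
  let Ψ : (ι ⊕ Fin M × Fin t → F) →ₗ[F] (Fin R → F) :=
    { toFun := fun x => ∑ j, x (Sum.inl j) • h j + ∑ p : Fin M × Fin t, x (Sum.inr p) • b p.1 p.2
      map_add' := by
        intro x y
        simp only [Pi.add_apply, add_smul, Finset.sum_add_distrib]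
        abel
      map_smul' := by
        intro a x
        simp only [Pi.smul_apply, smul_eq_mul, mul_smul, RingHom.id_apply, smul_add,
          Finset.smul_sum] }
  have hcov : ∀ s : Fin t → Fin R → F, ∃ e : Fin t → (ι ⊕ Fin M × Fin t) → F,
      (∀ k, Ψ (e k) = s k) ∧
      (univ.filter fun j => ∃ k, e k j ≠ 0).card ≤ m * (Fintype.card (Fin t → F) - 1) + t := by
    intro s
    obtain ⟨i, hi⟩ := hb s
    rw [hB, mem_filter] at hi
    push Not at hi
    obtain ⟨e, he, hes⟩ := hi (mem_univ _)
    refine ⟨fun k => Sum.elim (fun j => e j k) fun p => if p = (i, k) then 1 else 0, ?_, ?_⟩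
    · intro k
      change ∑ j, e j k • h j + ∑ p : Fin M × Fin t, (if p = (i, k) then (1 : F) else 0) •
        b p.1 p.2 = s k
      have h1 := congrFun hes k
      simp only [syn, Pi.sub_apply] at h1
      rw [h1]
      simp
    · rw [← weight_E he]
      calc (univ.filter fun j : ι ⊕ Fin M × Fin t => ∃ k, Sum.elim (fun j => e j k)
              (fun p => if p = (i, k) then (1 : F) else 0) j ≠ 0).card
          ≤ ((univ.filter fun j => e j ≠ 0).disjSum
              (univ.image fun k : Fin t => (i, k))).card := by
            refine Finset.card_le_card ?_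
            intro j hj
            rw [mem_filter] at hj
            obtain ⟨-, k, hk⟩ := hj
            rw [Finset.mem_disjSum]
            rcases j with j | p
            · left
              refine ⟨j, ?_, rfl⟩
              rw [mem_filter]
              refine ⟨mem_univ _, fun h0 => hk ?_⟩
              simp [h0]
            · right
              refine ⟨p, ?_, rfl⟩
              simp only [Sum.elim_inr, ne_eq, ite_eq_right_iff, one_ne_zero, imp_false,
                not_not] at hk
              rw [hk]
              exact mem_image_of_mem _ (mem_univ k)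
        _ = (univ.filter fun j => e j ≠ 0).card + (univ.image fun k : Fin t => (i, k)).card :=
            Finset.card_disjSum _ _
        _ ≤ (univ.filter fun j => e j ≠ 0).card + t := by
            refine Nat.add_le_add_left (Finset.card_image_le.trans ?_) _
            simp
  have hsurj : Function.Surjective Ψ := by
    intro v
    obtain ⟨e, he, -⟩ := hcov fun _ => v
    exact ⟨e ⟨0, ht⟩, he _⟩
  refine ⟨LinearMap.ker Ψ, ?_, ?_⟩
  · intro u
    obtain ⟨e, he, hw⟩ := hcov fun k => Ψ (u k)
    refine ⟨fun k => u k - e k, fun k => ?_, ?_⟩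
    · simp [he k]
    · refine le_trans (Finset.card_le_card ?_) hw
      intro j hj
      rw [mem_filter] at hj ⊢
      obtain ⟨-, k, hk⟩ := hj
      exact ⟨mem_univ _, k, fun h0 => hk (by simp [h0])⟩
  · have h1 := LinearMap.finrank_range_add_finrank_ker Ψ
    rw [LinearMap.range_eq_top.2 hsurj, finrank_top, Module.finrank_fin_fun,
      Module.finrank_fintype_fun_eq_card] at h1
    rw [add_comm, h1]
    simp

theorem Cov.transfer {t r : ℕ} {C : Submodule F (κ → F)} (h : Cov t r (C : Set (κ → F)))
    (σ : ι ≃ κ) : Cov t r ((C.map (LinearEquiv.funCongrLeft F F σ).toLinearMap : Submodule F _) :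
      Set (ι → F)) := by
  intro u
  obtain ⟨c, hc, hw⟩ := h fun k j => u k (σ.symm j)
  refine ⟨fun k j => c k (σ j), fun k => ?_, ?_⟩
  · exact ⟨c k, hc k, rfl⟩
  · refine le_trans ?_ hw
    refine Finset.card_le_card_of_injOn σ ?_ σ.injective.injOn
    intro j hj
    rw [Finset.mem_coe, mem_filter] at hj ⊢
    simpa using hj

end Pool.Agent.R105.KL
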