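import Mathlib
import Pool.Agent.R105.KL.Comp

/-! Comparison of balls with classes of functions of constant composition. -/

set_option autoImplicit false
set_option linter.unusedSectionVars false

namespace Pool.Agent.R105.KL

open Finset Nat

theorem fact_le {p p' : ℕ} (h : p ≤ p') : p' ! ≤ p ! * p' ^ (p' - p) := by
  have h1 := Nat.factorial_mul_descFactorial (n := p') (k := p' - p) (Nat.sub_le _ _)
  rw [show p' - (p' - p) = p by omega] at h1
  rw [← h1]
  exact Nat.mul_le_mul_left _ (Nat.descFactorial_le_pow _ _)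

theorem fact_pow (m c : ℕ) : m ! * m ^ c ≤ c ! * m ^ m := by
  rcases le_total m c with h | h
  · have h1 := Nat.factorial_mul_pow_sub_le_factorial h
    calc m ! * m ^ c = m ! * m ^ (c - m) * m ^ m := by
          rw [mul_assoc, ← pow_add]; congr 2; omega
      _ ≤ c ! * m ^ m := Nat.mul_le_mul_right _ h1
  · calc m ! * m ^ c ≤ (c ! * m ^ (m - c)) * m ^ c := Nat.mul_le_mul_right _ (fact_le h)
      _ = c ! * m ^ m := by rw [mul_assoc, ← pow_add]; congr 2; omega

theorem prod_fact {X : Type} (S : Finset X) (c : X → ℕ) (m : ℕ)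
    (h : S.card * m ≤ ∑ x ∈ S, c x) : (m !) ^ S.card ≤ ∏ x ∈ S, (c x)! := by
  rcases Nat.eq_zero_or_pos m with rfl | hm
  · simp only [Nat.factorial_zero, one_pow]
    exact Finset.one_le_prod' fun x _ => Nat.factorial_pos _
  · have h1 : ∏ x ∈ S, (m ! * m ^ c x) ≤ ∏ x ∈ S, ((c x)! * m ^ m) :=
      Finset.prod_le_prod' fun x _ => fact_pow m (c x)
    rw [Finset.prod_mul_distrib, Finset.prod_mul_distrib, Finset.prod_const, Finset.prod_const,
      Finset.prod_pow_eq_pow_sum, ← pow_mul, mul_comm m] at h1
    have h2 : (m !) ^ S.card * m ^ (S.card * m) ≤ (∏ x ∈ S, (c x)!) * m ^ (S.card * m) :=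
      (Nat.mul_le_mul_left _ (Nat.pow_le_pow_right hm h)).trans h1
    exact Nat.le_of_mul_le_mul_right h2 (pow_pos hm _)

variable {ι ι' X : Type} [Fintype ι] [DecidableEq ι] [Fintype ι'] [DecidableEq ι'] [Fintype X]
  [DecidableEq X] [Zero X]

/-- The ball of radius `r`. -/
def Ball (ι X : Type) [Fintype ι] [DecidableEq ι] [Fintype X] [DecidableEq X] [Zero X] (r : ℕ) :
    Finset (ι → X) :=
  univ.filter fun f => (univ.filter fun j => f j ≠ 0).card ≤ r

theorem card_E {m : ℕ} (hm : (Fintype.card X - 1) * m ≤ Fintype.card ι) :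
    (E ι X m).card * ((Fintype.card ι - (Fintype.card X - 1) * m)! * (m !) ^ (Fintype.card X - 1)) =
      (Fintype.card ι)! := by
  set c : X → ℕ := fun a => if a = 0 then Fintype.card ι - (Fintype.card X - 1) * m else m with hc
  have hcard : (univ.erase (0 : X)).card = Fintype.card X - 1 := by
    rw [card_erase_of_mem (mem_univ _), Finset.card_univ]
  have hsum : ∑ a ∈ univ.erase (0 : X), c a = (Fintype.card X - 1) * m := by
    rw [Finset.sum_congr rfl (g := fun _ => m), Finset.sum_const, hcard, smul_eq_mul]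
    intro x hx
    simp [hc, Finset.ne_of_mem_erase hx]
  have h1 := class_card (ι := ι) c (by
    rw [← Finset.add_sum_erase univ _ (mem_univ (0 : X)), hsum]
    simp only [hc, if_true]
    omega)
  have h2 : (univ.filter fun f : ι → X => ∀ a, cnt f a = c a) = E ι X m := by
    ext f
    rw [mem_E]
    simp only [mem_filter, mem_univ, true_and]
    constructor
    · intro h a ha
      rw [h a]
      simp [hc, ha]
    · intro h a
      by_cases ha : a = 0
      · subst ha
        have h3 := sum_cnt f
        rw [← Finset.add_sum_erase univ _ (mem_univ (0 : X))] at h3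
        have h4 : ∑ x ∈ univ.erase (0 : X), cnt f x = ∑ x ∈ univ.erase (0 : X), c x :=
          Finset.sum_congr rfl fun x hx => by
            rw [h x (Finset.ne_of_mem_erase hx)]
            simp [hc, Finset.ne_of_mem_erase hx]
        rw [hsum] at h4
        simp only [hc, if_true]
        omega
      · rw [h a ha]
        simp [hc, ha]
  have h3 : ∏ a, (c a)! = (Fintype.card ι - (Fintype.card X - 1) * m)! *
      (m !) ^ (Fintype.card X - 1) := by
    rw [← Finset.mul_prod_erase univ _ (mem_univ (0 : X))]
    congr 1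
    · simp [hc]
    · rw [Finset.prod_congr rfl (g := fun _ => m !), Finset.prod_const, hcard]
      intro x hx
      simp [hc, Finset.ne_of_mem_erase hx]
  rw [← h1, h2, h3]

/-- Some composition class is a large part of the ball. -/
theorem ball_le_class (r : ℕ) : ∃ c : X → ℕ, ∑ a, c a = Fintype.card ι ∧
    ∑ a ∈ univ.erase (0 : X), c a ≤ r ∧
    (Ball ι X r).card ≤ (univ.filter fun f : ι → X => ∀ a, cnt f a = c a).card *
      (Fintype.card ι + 1) ^ Fintype.card X := by
  have hne : (Ball ι X r).Nonempty := ⟨fun _ => 0, by simp [Ball]⟩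
  obtain ⟨f0, hf0, hmax⟩ := Finset.exists_max_image (Ball ι X r)
    (fun f => (univ.filter fun g : ι → X => ∀ a, cnt g a = cnt f a).card) hne
  refine ⟨cnt f0, sum_cnt f0, ?_, ?_⟩
  · rw [Ball, mem_filter] at hf0
    refine le_trans (le_of_eq ?_) hf0.2
    rw [Finset.card_eq_sum_card_fiberwise (f := f0) (t := univ.erase 0)]
    · refine Finset.sum_congr rfl fun x hx => ?_
      rw [cnt, Finset.filter_filter]
      congr 1
      ext j
      simp only [mem_filter, mem_univ, true_and]
      exact ⟨fun h => ⟨by rw [h]; exact Finset.ne_of_mem_erase hx, h⟩, fun h => h.2⟩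
    · intro j hj
      simpa using hj
  · set T := Fintype.piFinset fun _ : X => range (Fintype.card ι + 1) with hT
    have hTc : T.card = (Fintype.card ι + 1) ^ Fintype.card X := by
      rw [hT, Fintype.card_piFinset]
      simp
    rw [← hTc]
    refine Finset.card_le_mul_card_image_of_maps_to (f := fun f => cnt f) ?_ _ ?_
    · intro f _
      rw [hT, Fintype.mem_piFinset]
      intro a
      rw [mem_range, Nat.lt_succ_iff]
      exact Finset.card_le_univ _
    · intro c _
      by_cases hc : ∃ f ∈ Ball ι X r, cnt f = c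
      · obtain ⟨f, hf, rfl⟩ := hc
        refine le_trans (Finset.card_le_card ?_) (hmax f hf)
        intro g hg
        rw [mem_filter] at hg ⊢
        exact ⟨mem_univ _, fun a => congrFun hg.2 a⟩
      · rw [Finset.card_eq_zero.2]
        · exact Nat.zero_le _
        · rw [Finset.filter_eq_empty_iff]
          exact fun f hf hfc => hc ⟨f, hf, hfc⟩

/-- The ball is not much larger than a class of constant composition in a slightly smaller space. -/
theorem ball_le {a r : ℕ} (hX : 1 < Fintype.card X) (hι : Fintype.card ι = Fintype.card ι' + a)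
    (hpos : 0 < Fintype.card ι) :
    (Ball ι X r).card ≤ (Fintype.card ι + 1) ^ (Fintype.card X + a) ∨
    ∃ m, (Fintype.card X - 1) * m + a ≤ r ∧ 0 < (E ι' X m).card ∧
      (Ball ι X r).card ≤ (Fintype.card ι + 1) ^ (2 * Fintype.card X + a) * (E ι' X m).card := by
  obtain ⟨c, hc1, hc2, hc3⟩ := ball_le_class (ι := ι) (X := X) r
  have h1 := class_card (ι := ι) c hc1
  set A := (univ.filter fun f : ι → X => ∀ a, cnt f a = c a).card
  set n := Fintype.card ι with hn
  set Q := Fintype.card X - 1 with hQ
  set w := ∑ a ∈ univ.erase (0 : X), c a with hw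
  rw [← Finset.add_sum_erase univ _ (mem_univ (0 : X))] at hc1
  rw [← Finset.mul_prod_erase univ _ (mem_univ (0 : X))] at h1
  have hcard : (univ.erase (0 : X)).card = Q := by
    rw [card_erase_of_mem (mem_univ _), Finset.card_univ]
  have hc0 : c 0 = n - w := by omega
  have hP : 0 < ∏ x ∈ univ.erase (0 : X), (c x)! := Finset.prod_pos fun x _ => Nat.factorial_pos _
  rcases Nat.lt_or_ge w a with hwa | hwa
  · left
    have h2 : A * (n - w)! ≤ n ^ w * (n - w)! := by
      calc A * (n - w)! ≤ A * ((n - w)! * ∏ x ∈ univ.erase (0 : X), (c x)!) :=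
            Nat.mul_le_mul_left _ (Nat.le_mul_of_pos_right _ hP)
        _ = n ! := by rw [← hc0]; exact h1
        _ ≤ (n - w)! * n ^ (n - (n - w)) := fact_le (Nat.sub_le _ _)
        _ = n ^ w * (n - w)! := by rw [mul_comm]; congr 2; omega
    have h3 : A ≤ n ^ w := Nat.le_of_mul_le_mul_right h2 (Nat.factorial_pos _)
    calc (Ball ι X r).card ≤ A * (n + 1) ^ Fintype.card X := hc3
      _ ≤ (n + 1) ^ a * (n + 1) ^ Fintype.card X := by
          refine Nat.mul_le_mul_right _ (h3.trans ?_)
          calc n ^ w ≤ (n + 1) ^ w := Nat.pow_le_pow_left (Nat.le_succ _) _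
            _ ≤ (n + 1) ^ a := Nat.pow_le_pow_right (Nat.succ_pos _) hwa.le
      _ = (n + 1) ^ (Fintype.card X + a) := by rw [← pow_add, add_comm a]
  · right
    have hQ0 : 0 < Q := by omega
    set m := (w - a) / Q with hm
    have hm1 : Q * m ≤ w - a := Nat.mul_div_le _ _
    have hm2 : w - a < Q * m + Q := by
      have := Nat.lt_mul_div_succ (w - a) hQ0
      rw [Nat.mul_add, mul_one] at this
      exact this
    have hn1 : Q * m ≤ Fintype.card ι' := by omega
    have hE := card_E (ι := ι') (X := X) (m := m) hn1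
    have hEpos : 0 < (E ι' X m).card := by
      rcases Nat.eq_zero_or_pos (E ι' X m).card with h0 | h0
      · rw [h0, zero_mul] at hE
        exact absurd hE.symm (Nat.factorial_ne_zero _)
      · exact h0
    refine ⟨m, by omega, hEpos, ?_⟩
    have hAE : A ≤ n ^ (a + Q) * (E ι' X m).card := by
      have e1 : n ! ≤ (Fintype.card ι')! * n ^ a := by
        have := fact_le (p := Fintype.card ι') (p' := n) (by omega)
        rwa [show n - Fintype.card ι' = a by omega] at this
      have e2 : (Fintype.card ι' - Q * m)! ≤ (n - w)! * n ^ Q := by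
        have := fact_le (p := n - w) (p' := Fintype.card ι' - Q * m) (by omega)
        refine this.trans (Nat.mul_le_mul_left _ ?_)
        calc (Fintype.card ι' - Q * m) ^ (Fintype.card ι' - Q * m - (n - w))
            ≤ n ^ (Fintype.card ι' - Q * m - (n - w)) := Nat.pow_le_pow_left (by omega) _
          _ ≤ n ^ Q := Nat.pow_le_pow_right hpos (by omega)
      have e3 : (m !) ^ Q ≤ ∏ x ∈ univ.erase (0 : X), (c x)! := by
        rw [← hcard]
        refine prod_fact _ _ _ ?_
        rw [hcard]
        omega
      have e4 : A * ((n - w)! * ∏ x ∈ univ.erase (0 : X), (c x)!) ≤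
          n ^ (a + Q) * (E ι' X m).card * ((n - w)! * ∏ x ∈ univ.erase (0 : X), (c x)!) := by
        calc A * ((n - w)! * ∏ x ∈ univ.erase (0 : X), (c x)!) = n ! := by rw [← hc0]; exact h1
          _ ≤ (Fintype.card ι')! * n ^ a := e1
          _ = (E ι' X m).card * ((Fintype.card ι' - Q * m)! * (m !) ^ Q) * n ^ a := by rw [hE]
          _ ≤ (E ι' X m).card * (((n - w)! * n ^ Q) * ∏ x ∈ univ.erase (0 : X), (c x)!) * n ^ a :=
            Nat.mul_le_mul_right _ (Nat.mul_le_mul_left _ (Nat.mul_le_mul e2 e3))
          _ = _ := by rw [pow_add]; ring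
      exact Nat.le_of_mul_le_mul_right e4 (Nat.mul_pos (Nat.factorial_pos _) hP)
    calc (Ball ι X r).card ≤ A * (n + 1) ^ Fintype.card X := hc3
      _ ≤ (n ^ (a + Q) * (E ι' X m).card) * (n + 1) ^ Fintype.card X :=
          Nat.mul_le_mul_right _ hAE
      _ ≤ ((n + 1) ^ (a + Q) * (E ι' X m).card) * (n + 1) ^ Fintype.card X :=
          Nat.mul_le_mul_right _ (Nat.mul_le_mul_right _ (Nat.pow_le_pow_left (Nat.le_succ _) _))
      _ = (n + 1) ^ (a + Q + Fintype.card X) * (E ι' X m).card := by rw [pow_add]; ring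
      _ ≤ (n + 1) ^ (2 * Fintype.card X + a) * (E ι' X m).card :=
          Nat.mul_le_mul_right _ (Nat.pow_le_pow_right (Nat.succ_pos _) (by omega))

end Pool.Agent.R105.KL
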