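import Mathlib
import Pool.Agent.R105.KL.Code
import Pool.Agent.R105.KL.Size

/-! Linear covering codes which are almost as good as the sphere covering bound. -/

set_option autoImplicit false
set_option linter.unusedSectionVars false

namespace Pool.Agent.R105.KL

open Finset

variable {F : Type} [Field F] [Fintype F] [DecidableEq F]

theorem Cov.mono {ι : Type} [Fintype ι] [DecidableEq ι] {t r r' : ℕ} {C : Set (ι → F)}
    (h : Cov t r C) (hr : r ≤ r') : Cov t r' C := fun u => by
  obtain ⟨c, hc, hw⟩ := h u
  exact ⟨c, hc, hw.trans hr⟩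

theorem Cov.top {ι : Type} [Fintype ι] [DecidableEq ι] {t r : ℕ} :
    Cov t r ((⊤ : Submodule F (ι → F)) : Set (ι → F)) := fun u =>
  ⟨u, fun _ => trivial, by simp⟩

/-- The existence theorem for linear codes. -/
theorem exists_linear {t n M s r : ℕ} (ht : 0 < t) (hM0 : 0 < M) (hn : M * t ≤ n)
    (hs : K F t ^ M * Fintype.card F ^ (t * n) < Fintype.card F ^ (s * M)) :
    ∃ C : Submodule F (Fin n → F), Cov t r (C : Set (Fin n → F)) ∧
      Fintype.card F ^ (t * Module.finrank F C) * (Ball (Fin n) (Fin t → F) r).card ≤
        Fintype.card F ^ (t * n + t * (s + 1)) *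
          (n + 1) ^ (2 * Fintype.card (Fin t → F) + M * t) := by
  classical
  set q := Fintype.card F with hq
  have hq1 : 1 < q := Fintype.one_lt_card
  have hq0 : 0 < q := by omega
  have hX : Fintype.card (Fin t → F) = q ^ t := by
    rw [Fintype.card_fun, Fintype.card_fin]
  have hX1 : 1 < Fintype.card (Fin t → F) := by
    rw [hX]; exact Nat.one_lt_pow (by omega) hq1
  have hn0 : 0 < n := lt_of_lt_of_le (Nat.mul_pos hM0 ht) hn
  have htop : Module.finrank F (⊤ : Submodule F (Fin n → F)) = n := by
    rw [finrank_top, Module.finrank_fin_fun]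
  rcases ball_le (ι := Fin n) (ι' := Fin (n - M * t)) (X := Fin t → F) (a := M * t) (r := r) hX1
    (by simp; omega) (by simpa using hn0) with h | ⟨m, hm1, hE, hm2⟩
  · refine ⟨⊤, Cov.top, ?_⟩
    rw [htop]
    rw [Fintype.card_fin] at h
    calc q ^ (t * n) * (Ball (Fin n) (Fin t → F) r).card
        ≤ q ^ (t * n) * (n + 1) ^ (Fintype.card (Fin t → F) + M * t) := Nat.mul_le_mul_left _ h
      _ ≤ _ := Nat.mul_le_mul (Nat.pow_le_pow_right hq0 (Nat.le_add_right _ _))
          (Nat.pow_le_pow_right (Nat.succ_pos _) (by omega))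
  · rw [Fintype.card_fin] at hm2
    set e := (E (Fin (n - M * t)) (Fin t → F) m).card with he
    set R0 := Nat.log (q ^ t) e with hR0
    have hqt : 1 < q ^ t := Nat.one_lt_pow (by omega) hq1
    have hR1 : q ^ (t * R0) ≤ e := by
      rw [pow_mul]; exact Nat.pow_log_le_self _ (by omega)
    have hR2 : e ≤ q ^ (t * (R0 + 1)) := by
      rw [pow_mul]; exact (Nat.lt_pow_succ_log_self hqt e).le
    have hball : (Ball (Fin n) (Fin t → F) r).card ≤
        (n + 1) ^ (2 * Fintype.card (Fin t → F) + M * t) * q ^ (t * (R0 + 1)) :=
      hm2.trans (Nat.mul_le_mul_left _ hR2)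
    rcases Nat.lt_or_ge R0 s with hRs | hRs
    · refine ⟨⊤, Cov.top, ?_⟩
      rw [htop]
      calc q ^ (t * n) * (Ball (Fin n) (Fin t → F) r).card
          ≤ q ^ (t * n) * ((n + 1) ^ (2 * Fintype.card (Fin t → F) + M * t) *
              q ^ (t * (R0 + 1))) := Nat.mul_le_mul_left _ hball
        _ ≤ q ^ (t * n) * ((n + 1) ^ (2 * Fintype.card (Fin t → F) + M * t) *
              q ^ (t * (s + 1))) := by
            refine Nat.mul_le_mul_left _ (Nat.mul_le_mul_left _ (Nat.pow_le_pow_right hq0 ?_))
            exact Nat.mul_le_mul_left _ (by omega)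
        _ = _ := by rw [pow_add]; ring
    · set R := R0 - s with hR
      have hV : Fintype.card (Fin R → F) = q ^ R := by
        rw [Fintype.card_fun, Fintype.card_fin]
      have hNt : N F (Fin (n - M * t)) t m t = e := by
        simp [N, he]
      have hR0n : R0 ≤ n := by
        have h1 : e ≤ q ^ (t * (n - M * t)) := by
          calc e ≤ Fintype.card (Fin (n - M * t) → Fin t → F) := Finset.card_le_univ _
            _ = q ^ (t * (n - M * t)) := by
              rw [Fintype.card_fun, hX, Fintype.card_fin, ← pow_mul]
        have h2 := (Nat.pow_le_pow_iff_right hq1).1 (hR1.trans h1)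
        have h3 := Nat.le_of_mul_le_mul_left h2 ht
        omega
      obtain ⟨C, hC1, hC2⟩ := exists_code (F := F) (ι := Fin (n - M * t)) (t := t) (m := m) (R := R)
        (L := q ^ s) (M := M) ht hE (by
          intro j hj1 hj2
          rw [hV, ← pow_mul, ← pow_add]
          have h1 := N_conc (F := F) (ι := Fin (n - M * t)) (m := m) hj2 (by rw [hNt]; exact hE)
          rw [hNt] at h1
          have h2 : (q ^ (R0 * j)) ^ t ≤ N F (Fin (n - M * t)) t m j ^ t := by
            calc (q ^ (R0 * j)) ^ t = (q ^ (t * R0)) ^ j := by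
                  rw [← pow_mul, ← pow_mul]; congr 1; ring
              _ ≤ e ^ j := Nat.pow_le_pow_left hR1 j
              _ ≤ _ := h1
          have h3 := (Nat.pow_le_pow_iff_left (by omega)).1 h2
          refine le_trans (Nat.pow_le_pow_right hq0 ?_) h3
          calc R * j + s ≤ R * j + s * j := by
                refine Nat.add_le_add_left ?_ _
                exact Nat.le_mul_of_pos_right _ hj1
            _ = R0 * j := by rw [← Nat.add_mul]; congr 1; omega)
        (by
          rw [Fintype.card_fun, hV, Fintype.card_fin, ← pow_mul, ← pow_mul]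
          refine lt_of_le_of_lt (Nat.mul_le_mul_left _ (Nat.pow_le_pow_right hq0 ?_)) hs
          rw [mul_comm t n]
          exact Nat.mul_le_mul_right _ (by omega))
      have hequiv : Nonempty (Fin n ≃ Fin (n - M * t) ⊕ Fin M × Fin t) :=
        ⟨Fintype.equivOfCardEq (by simp; omega)⟩
      obtain ⟨σ⟩ := hequiv
      refine ⟨_, (hC1.mono ?_).transfer σ, ?_⟩
      · rw [mul_comm] 
        have : t ≤ M * t := Nat.le_mul_of_pos_left _ hM0
        omega
      · rw [LinearEquiv.finrank_map_eq]
        have hk : Module.finrank F C + R = n := by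
          rw [hC2, Fintype.card_fin]; omega
        calc q ^ (t * Module.finrank F C) * (Ball (Fin n) (Fin t → F) r).card
            ≤ q ^ (t * Module.finrank F C) * ((n + 1) ^ (2 * Fintype.card (Fin t → F) + M * t) *
              q ^ (t * (R0 + 1))) := Nat.mul_le_mul_left _ hball
          _ = q ^ (t * Module.finrank F C + t * (R0 + 1)) *
              (n + 1) ^ (2 * Fintype.card (Fin t → F) + M * t) := by rw [pow_add]; ring
          _ = _ := by
              congr 2
              rw [← Nat.mul_add, ← Nat.mul_add]
              congr 1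
              omega

/-- The sphere covering bound. -/
theorem sphere_covering {t n r : ℕ} {C : Set (Fin n → F)} (h : Cov t r C) :
    Fintype.card F ^ (t * n) ≤ Nat.card C ^ t * (Ball (Fin n) (Fin t → F) r).card := by
  classical
  set CF : Finset (Fin n → F) := univ.filter fun x => x ∈ C with hCF
  have hc : Nat.card C = CF.card := by
    rw [Nat.card_eq_fintype_card, hCF, Fintype.card_subtype]
  have h1 : (univ : Finset (Fin n → Fin t → F)) ⊆
      ((Fintype.piFinset fun _ : Fin t => CF) ×ˢ Ball (Fin n) (Fin t → F) r).image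
        fun p => fun j i => p.1 i j + p.2 j i := by
    intro v _
    obtain ⟨c, hc1, hc2⟩ := h fun i j => v j i
    rw [mem_image]
    refine ⟨(c, fun j i => v j i - c i j), ?_, ?_⟩
    · rw [mem_product, Fintype.mem_piFinset, Ball, mem_filter]
      refine ⟨fun i => by simpa [hCF] using hc1 i, mem_univ _, ?_⟩
      refine le_trans (Finset.card_le_card ?_) hc2
      intro j hj
      rw [mem_filter] at hj ⊢
      refine ⟨mem_univ _, ?_⟩
      by_contra hcon
      push Not at hcon
      apply hj.2
      funext i
      simp [hcon i]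
    · funext j i
      simp
  have h2 := (Finset.card_le_card h1).trans Finset.card_image_le
  rw [card_product, Fintype.card_piFinset, Finset.prod_const, card_univ, card_univ,
    Fintype.card_fin, Fintype.card_fun, Fintype.card_fun, Fintype.card_fin, Fintype.card_fin,
    ← pow_mul, ← hc] at h2
  exact h2

end Pool.Agent.R105.KL
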